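import Pool.Agent.W447.LT.Stm

/-! Project LT, part BASE: the configuration word along the path `0, 0, …`. -/

set_option autoImplicit false

namespace Pool.Agent.W925.LT.Base

open Pool.Agent.W447.LT

variable {N : ℕ} {S : Type} (δ : S → E N → Option (S × Up N))

/-- words without the generator `t` -/
def P (w : W (Gn N S)) : Prop := ∀ s ∈ w, s.1 ≠ Gn.t

theorem P_nil : P ([] : W (Gn N S)) := by
  intro s hs; simp at hs

theorem P_append {u w : W (Gn N S)} (hu : P u) (hw : P w) : P (u ++ w) := by
  intro s hs
  rcases List.mem_append.1 hs with h | h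
  · exact hu s h
  · exact hw s h

theorem P_winv {w : W (Gn N S)} (hw : P w) : P (winv w) := by
  intro s hs
  simp only [winv, List.mem_reverse, List.mem_map] at hs
  obtain ⟨a, ha, rfl⟩ := hs
  exact hw a ha

theorem P_kw (u : Up N) : P (kw (S := S) u) := by
  intro s hs
  unfold kw at hs
  split_ifs at hs <;> simp at hs <;> rcases hs with h | h
  all_goals first
    | (subst h; simp)
    | (rcases h with h | h <;> subst h <;> simp)

theorem P_iw (r0 : Fin N) (n : ℕ) : P (iw (S := S) r0 n) := by
  intro s hs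
  unfold iw at hs
  simp only [List.mem_cons, List.mem_append, List.mem_replicate, List.mem_flatten] at hs
  rcases hs with h | h | h | ⟨l, ⟨_, hl⟩, h⟩
  · subst h; simp
  · rw [h.2]; simp
  · subst h; simp
  · subst hl
    simp at h
    rcases h with h | h <;> subst h <;> simp

/-- image of a tape letter under a generator other than `t` -/
theorem perm_inl (g : Gn N S) (hg : g ≠ Gn.t) :
    ∃ p : Equiv.Perm (E N), ∀ e, (base δ).perm g (Sum.inl e) = Sum.inl (p e) := by
  cases g with
  | t => exact absurd rfl hg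
  | al => exact ⟨pAl N, fun e => rfl⟩
  | mu => exact ⟨Equiv.refl _, fun e => rfl⟩
  | sg => exact ⟨pSg N, fun e => rfl⟩
  | la => exact ⟨Equiv.refl _, fun e => rfl⟩
  | nu f => exact ⟨pNu f, fun e => rfl⟩
  | be f => exact ⟨pBe f, fun e => rfl⟩
  | z s => exact ⟨Equiv.refl _, fun e => rfl⟩

theorem sec_inl (g : Gn N S) (hg : g ≠ Gn.t) (e : E N) :
    P ((base δ).sec g (Sum.inl e)) := by
  cases g with
  | t => exact absurd rfl hg
  | al => exact P_nil
  | mu =>
    intro s hs
    simp only [base] at hs
    split_ifs at hs <;> simp at hs <;> simp_all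
    rcases hs with h | h <;> subst h <;> simp
  | sg => intro s hs; simp [base] at hs; subst hs; simp
  | la =>
    intro s hs; simp [base] at hs
    rcases hs with h | h <;> subst h <;> simp
  | nu f => intro s hs; simp [base] at hs; subst hs; simp
  | be f => exact P_nil
  | z s =>
    simp only [base]
    cases h : δ s e with
    | none => simpa [h] using P_nil
    | some x =>
      obtain ⟨s', u⟩ := x
      refine P_append (P_winv (P_kw u)) ?_
      intro a ha
      rcases List.mem_cons.1 ha with h | h
      · subst h; simp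
      · exact P_kw u a h

theorem one_inl (s : Gn N S × Bool) (hs : s.1 ≠ Gn.t) (e : E N) :
    (∃ e', ((base δ).one s (Sum.inl e)).1 = Sum.inl e') ∧ P ((base δ).one s (Sum.inl e)).2 := by
  obtain ⟨g, b⟩ := s
  obtain ⟨p, hp⟩ := perm_inl δ g hs
  cases b with
  | true => exact ⟨⟨p e, by simp [AR.one, hp]⟩, by simpa [AR.one] using sec_inl δ g hs e⟩
  | false =>
    have h1 : ((base δ).perm g).symm (Sum.inl e) = Sum.inl (p.symm e) := by
      rw [Equiv.symm_apply_eq, hp]
      simp
    refine ⟨⟨p.symm e, by simp [AR.one, h1]⟩, ?_⟩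
    have := P_winv (sec_inl δ g hs (p.symm e))
    simpa [AR.one, h1] using this

theorem rs_inl (w : W (Gn N S)) (hw : P w) (e : E N) :
    (∃ e', ((base δ).rs w (Sum.inl e)).1 = Sum.inl e') ∧ P ((base δ).rs w (Sum.inl e)).2 := by
  induction w with
  | nil => exact ⟨⟨e, rfl⟩, P_nil⟩
  | cons s w ih =>
    obtain ⟨⟨e', he'⟩, h2⟩ := ih (fun a ha => hw a (List.mem_cons_of_mem _ ha))
    obtain ⟨⟨e'', he''⟩, h3⟩ := one_inl δ s (hw s (List.mem_cons_self ..)) e'
    simp only [AR.rs, he']
    exact ⟨⟨e'', he''⟩, P_append h3 h2⟩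

theorem pres (v : List (E N)) (w : W (Gn N S)) (hw : P w) :
    ∃ v' : List (E N), v'.length = v.length ∧
      (base δ).act (v.map Sum.inl) w = v'.map Sum.inl := by
  induction v generalizing w with
  | nil => exact ⟨[], rfl, rfl⟩
  | cons e v ih =>
    obtain ⟨⟨e', he'⟩, h2⟩ := rs_inl δ w hw e
    obtain ⟨v', hv', h3⟩ := ih _ h2
    refine ⟨e' :: v', by simp [hv'], ?_⟩
    simp only [List.map_cons, act_cons, he', h3]

theorem conj {Γ X : Type} (R : AR Γ X) (v v1 v2 v' : List X) (k : W Γ) (s : Γ × Bool)
    (h1 : R.act v k = v1) (h2 : R.act v1 [s] = v2) (h3 : R.act v' k = v2) :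
    R.act v (winv k ++ s :: k) = v' := by
  have : winv k ++ s :: k = winv k ++ ([s] ++ k) := rfl
  rw [this, act_append, act_append, h1, h2, ← h3, act_inv]

theorem z_tape (m : ℕ) : ∀ (v : List (E N)) (s : S), v.length = m →
    (base δ).act (v.map Sum.inl) [(Gn.z s, true)] = v.map Sum.inl := by
  induction m with
  | zero =>
    intro v s hv
    have : v = [] := List.length_eq_zero_iff.1 hv
    subst this
    rfl
  | succ m ih =>
    intro v s hv
    cases v with
    | nil => simp at hv
    | cons e v =>
      have hv' : v.length = m := by simpa using hv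
      rw [List.map_cons, act_gen]
      have hp : (base δ).perm (Gn.z s) (Sum.inl e) = Sum.inl e := rfl
      rw [hp]
      congr 1
      cases h : δ s e with
      | none =>
        have : (base δ).sec (Gn.z s) (Sum.inl e) = [] := by simp [base, h]
        rw [this, act_one]
      | some x =>
        obtain ⟨s', u⟩ := x
        have : (base δ).sec (Gn.z s) (Sum.inl e) = winv (kw u) ++ (Gn.z s', true) :: kw u := by
          simp [base, h]
        rw [this]
        obtain ⟨v', hl, h1⟩ := pres δ v (kw u) (P_kw u)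
        exact conj _ _ _ _ _ _ _ h1 (ih v' s' (by omega)) h1

theorem run (hK : KW) (i : ℕ) : ∀ (s : S) (c : C N) (j : Fin 3),
    (alive δ i (s, c) → (base δ).act (tr i c ++ [Sum.inr j]) [(Gn.z s, true)] =
      tr i c ++ [Sum.inr (j + 1)]) ∧
    (¬ alive δ i (s, c) → (base δ).act (tr i c ++ [Sum.inr j]) [(Gn.z s, true)] =
      tr i c ++ [Sum.inr j]) := by
  induction i with
  | zero =>
    intro s c j
    refine ⟨fun _ => ?_, fun h => absurd trivial h⟩
    simp only [tr, List.nil_append]
    rw [act_gen, act_nil]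
    have hp : (base δ).perm (Gn.z s) (Sum.inr j) = Sum.inr (finRotate 3 j) := rfl
    rw [hp]
    have : ∀ j : Fin 3, finRotate 3 j = j + 1 := by decide
    rw [this]
  | succ i ih =>
    intro s c j
    have hp : (base δ).perm (Gn.z s) (Sum.inl (hd c)) = Sum.inl (hd c) := rfl
    cases h : δ s (hd c) with
    | none =>
      have hsec : (base δ).sec (Gn.z s) (Sum.inl (hd c)) = [] := by simp [base, h]
      have hst : st δ (s, c) = none := by simp [st, h]
      refine ⟨fun ha => ?_, fun _ => ?_⟩
      · simp [alive, hst] at ha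
      · simp only [tr, List.cons_append]
        rw [act_gen, hp, hsec, act_one]
    | some x =>
      obtain ⟨s', u⟩ := x
      have hsec : (base δ).sec (Gn.z s) (Sum.inl (hd c)) =
          winv (kw u) ++ (Gn.z s', true) :: kw u := by simp [base, h]
      have hst : st δ (s, c) = some (s', upd u (tl c)) := by simp [st, h]
      have hal : alive δ (i + 1) (s, c) = alive δ i (s', upd u (tl c)) := by
        simp [alive, hst]
      have hk : ∀ j : Fin 3, (base δ).act (tr i (tl c) ++ [Sum.inr j]) (kw u) =
          tr i (upd u (tl c)) ++ [Sum.inr j] := fun j =>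
        hK N S δ u i (tl c) [Sum.inr j] (Or.inr ⟨j, rfl⟩)
      obtain ⟨i1, i2⟩ := ih s' (upd u (tl c)) j
      rw [hal]
      refine ⟨fun ha => ?_, fun ha => ?_⟩
      · simp only [tr, List.cons_append]
        rw [act_gen, hp, hsec]
        congr 1
        exact conj _ _ _ _ _ _ _ (hk j) (i1 ha) (hk (j + 1))
      · simp only [tr, List.cons_append]
        rw [act_gen, hp, hsec]
        congr 1
        exact conj _ _ _ _ _ _ _ (hk j) (i2 ha) (hk j)

theorem main (hK : KW) (hI : IW) : BASE := by
  intro N S δ s0 r0 n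
  have hi : ∀ (i : ℕ) (j : Fin 3), (base δ).act (List.replicate i (Sum.inl 0) ++ [Sum.inr j])
      (iw r0 n) = tr i (ic r0 n) ++ [Sum.inr j] := fun i j =>
    hI N S δ r0 n i [Sum.inr j] (Or.inr ⟨j, rfl⟩)
  refine ⟨fun j i ha => ?_, fun j x hx => ?_⟩
  · exact conj _ _ _ _ _ _ _ (hi j i) ((run δ hK j s0 (ic r0 n) i).1 ha) (hi j (i + 1))
  · cases x with
    | inr i =>
      have ha : ¬ alive δ j (s0, ic r0 n) := by
        rcases hx with h | h
        · exact h
        · exact absurd rfl (h i)
      exact conj _ _ _ _ _ _ _ (hi j i) ((run δ hK j s0 (ic r0 n) i).2 ha) (hi j i)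
    | inl e =>
      have he : (List.replicate j (Sum.inl 0) ++ [Sum.inl e] : List (A N)) =
          (List.replicate j 0 ++ [e]).map Sum.inl := by simp
      rw [he]
      obtain ⟨v', hl, h1⟩ := pres δ (List.replicate j 0 ++ [e]) (iw r0 n) (P_iw r0 n)
      exact conj _ _ _ _ _ _ _ h1 (z_tape δ v'.length v' s0 rfl) h1

end Pool.Agent.W925.LT.Base
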